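import Pool.Agent.W429.ABG.Stmts

/-! # The numeric recursion (`S_N`) -/

namespace Pool.Agent.W345.ABG
open Pool.Agent.W429.ABG

/-! ### closed form of the powers of the adjoint character -/

/-- binomial coefficients with integral lower index -/
def ch : ℕ → ℤ → ℤ
  | m, Int.ofNat k => (m.choose k : ℤ)
  | _, Int.negSucc _ => 0

theorem ch_succ (m : ℕ) (p : ℤ) : ch (m + 1) p = ch m p + ch m (p - 1) := by
  rcases p with (_ | k) | k
  · simp [ch]
    rfl
  · have : (Int.ofNat (k + 1) - 1 : ℤ) = Int.ofNat k := by simp
    rw [this]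
    simp only [ch]
    rw [Nat.choose_succ_succ]
    push_cast
    ring
  · have : (Int.negSucc k - 1 : ℤ) = Int.negSucc (k + 1) := by
      rw [Int.negSucc_eq, Int.negSucc_eq]
      push_cast
      ring
    rw [this]
    simp [ch]

theorem ch_zero (p : ℤ) : ch 0 p = if p = 0 then 1 else 0 := by
  rcases p with (_ | k) | k
  · simp [ch]
  · have : (Int.ofNat (k + 1) : ℤ) ≠ 0 := by
      intro h
      have : ((k + 1 : ℕ) : ℤ) = 0 := h
      omega
    rw [if_neg this]
    simp [ch]
  · have : (Int.negSucc k : ℤ) ≠ 0 := by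
      intro h
      rw [Int.negSucc_eq] at h
      omega
    rw [if_neg this]
    rfl

theorem ch_top (m : ℕ) : ch m ((m : ℤ) + 1) = 0 := by
  have : ((m : ℤ) + 1) = Int.ofNat (m + 1) := by simp
  rw [this]
  simp [ch]

theorem ch_neg_one (m : ℕ) : ch m (-1) = 0 := rfl

/-- coefficient of `x^p y^q` in `(1+x)^i (1+y)^j (1+1/(xy))^l` -/
def G (i j l : ℕ) (p q : ℤ) : ℤ :=
  ∑ k ∈ Finset.range (l + 1), ch l k * ch i (p + k) * ch j (q + k)

theorem G1 (i j l : ℕ) (p q : ℤ) : G (i + 1) j l p q = G i j l p q + G i j l (p - 1) q := by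
  unfold G
  rw [← Finset.sum_add_distrib]
  refine Finset.sum_congr rfl fun k _ => ?_
  rw [ch_succ, show p - 1 + (k : ℤ) = p + k - 1 by ring]
  ring

theorem G2 (i j l : ℕ) (p q : ℤ) : G i (j + 1) l p q = G i j l p q + G i j l p (q - 1) := by
  unfold G
  rw [← Finset.sum_add_distrib]
  refine Finset.sum_congr rfl fun k _ => ?_
  rw [ch_succ, show q - 1 + (k : ℤ) = q + k - 1 by ring]
  ring

theorem G3 (i j l : ℕ) (p q : ℤ) :
    G i j (l + 1) p q = G i j l p q + G i j l (p + 1) (q + 1) := by
  unfold G
  have h1 : ∑ k ∈ Finset.range (l + 1 + 1), ch (l + 1) k * ch i (p + k) * ch j (q + k) =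
      ∑ k ∈ Finset.range (l + 1 + 1), ch l k * ch i (p + k) * ch j (q + k) +
      ∑ k ∈ Finset.range (l + 1 + 1), ch l ((k : ℤ) - 1) * ch i (p + k) * ch j (q + k) := by
    rw [← Finset.sum_add_distrib]
    refine Finset.sum_congr rfl fun k _ => ?_
    rw [ch_succ]
    ring
  rw [h1, Finset.sum_range_succ (fun k : ℕ => ch l k * ch i (p + k) * ch j (q + k)) (l + 1),
    Finset.sum_range_succ' (fun k : ℕ => ch l ((k : ℤ) - 1) * ch i (p + k) * ch j (q + k)) (l + 1)]
  have h2 : ch l ((l + 1 : ℕ) : ℤ) = 0 := by
    push_cast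
    exact ch_top l
  have h3 : ch l (((0 : ℕ) : ℤ) - 1) = 0 := by
    simpa using ch_neg_one l
  rw [h2, h3]
  simp only [zero_mul, add_zero]
  congr 1
  refine Finset.sum_congr rfl fun k _ => ?_
  have e1 : (((k + 1 : ℕ) : ℤ) - 1) = k := by push_cast; ring
  have e2 : p + ((k + 1 : ℕ) : ℤ) = p + 1 + k := by push_cast; ring
  have e3 : q + ((k + 1 : ℕ) : ℤ) = q + 1 + k := by push_cast; ring
  rw [e1, e2, e3]

/-- the character of the `m`-th power of the adjoint representation -/
def X (m : ℕ) : ℤ × ℤ → ℤ := chiConv^[m] (fun μ => if μ = 0 then 1 else 0)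

theorem X_succ (m : ℕ) : X (m + 1) = chiConv (X m) := Function.iterate_succ_apply' _ _ _

theorem X_eq (m : ℕ) : ∀ p q : ℤ, X m (2 * p - q, 2 * q - p) = G m m m p q := by
  induction m with
  | zero =>
    intro p q
    simp only [X, Function.iterate_zero, id_eq, G, zero_add, Finset.range_one,
      Finset.sum_singleton, Nat.cast_zero, add_zero, ch_zero, if_true, one_mul, Prod.mk_eq_zero]
    by_cases hp : p = 0
    · by_cases hq : q = 0
      · simp [hp, hq]
      · have : ¬ (2 * p - q = 0 ∧ 2 * q - p = 0) := by omega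
        rw [if_neg this, if_neg hq, mul_zero]
    · have : ¬ (2 * p - q = 0 ∧ 2 * q - p = 0) := by omega
      rw [if_neg this, if_neg hp, zero_mul]
  | succ m ih =>
    intro p q
    rw [X_succ]
    simp only [chiConv, Prod.mk_add_mk]
    have e1 := ih p q
    have e2 := ih (p + 1) q
    have e3 := ih (p - 1) q
    have e4 := ih p (q + 1)
    have e5 := ih p (q - 1)
    have e6 := ih (p + 1) (q + 1)
    have e7 := ih (p - 1) (q - 1)
    rw [show ((2 * p - q + 2, 2 * q - p + -1) : ℤ × ℤ) = (2 * (p + 1) - q, 2 * q - (p + 1)) by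
        ext <;> simp <;> ring,
      show ((2 * p - q + -2, 2 * q - p + 1) : ℤ × ℤ) = (2 * (p - 1) - q, 2 * q - (p - 1)) by
        ext <;> simp <;> ring,
      show ((2 * p - q + -1, 2 * q - p + 2) : ℤ × ℤ) = (2 * p - (q + 1), 2 * (q + 1) - p) by
        ext <;> simp <;> ring,
      show ((2 * p - q + 1, 2 * q - p + -2) : ℤ × ℤ) = (2 * p - (q - 1), 2 * (q - 1) - p) by
        ext <;> simp <;> ring,
      show ((2 * p - q + 1, 2 * q - p + 1) : ℤ × ℤ) =
        (2 * (p + 1) - (q + 1), 2 * (q + 1) - (p + 1)) by
        ext <;> simp <;> ring,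
      show ((2 * p - q + -1, 2 * q - p + -1) : ℤ × ℤ) =
        (2 * (p - 1) - (q - 1), 2 * (q - 1) - (p - 1)) by
        ext <;> simp <;> ring, e1, e2, e3, e4, e5, e6, e7]
    rw [G1, G2, G2, G3, G3, G3, G3]
    have f1 : p - 1 + 1 = p := by ring
    have f2 : q - 1 + 1 = q := by ring
    rw [f1, f2]
    ring

/-- multiplicity of the trivial module in the powers of the adjoint module -/
def A (m : ℕ) : ℤ :=
  G m m m 0 0 - G m m m 1 0 - G m m m 0 1 + G m m m 2 1 + G m m m 1 2 - G m m m 2 2

theorem altsum_X (m : ℕ) : altsum (X m) = A m := by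
  unfold altsum A
  rw [← X_eq, ← X_eq, ← X_eq, ← X_eq, ← X_eq, ← X_eq]
  norm_num

theorem A_vals : A 0 = 1 ∧ A 1 = 0 ∧ A 2 = 1 ∧ A 3 = 2 ∧ A 4 = 8 ∧ A 5 = 32 ∧ A 6 = 145 ∧
    A 7 = 702 ∧ A 8 = 3598 ∧ A 9 = 19280 ∧ A 10 = 107160 := by
  decide +kernel

/-! ### the tables -/

def av : ℕ → ℤ := fun n => [0, 1, 2, 7, 32, 175, 1080, 7196, 49616, 336364].getD n 0
def bv : ℕ → ℤ := fun n => [0, 0, 1, 4, 21, 128, 875, 6480, 50372, 396928].getD n 0

def cc : ℕ → List ℤ := fun n => [
  [1],
  [0, -1],
  [-1, -2, 1],
  [-4, -4, 6, -1],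
  [-18, -4, 34, -12, 1],
  [-88, 65, 200, -120, 20, -1],
  [-415, 1028, 1150, -1180, 305, -30, 1],
  [-1272, 11970, 5222, -11725, 4340, -644, 42, -1],
  [9450, 128056, -6300, -116592, 60900, -12376, 1204, -56, 1],
  [301936, 1287842, -732576, -1118320, 856632, -228522, 29904, -2064, 72, -1]].getD n []

def P (n : ℕ) : ℤ × ℤ → ℤ := fun μ => ∑ m ∈ Finset.range 10, (cc n).getD m 0 * X m μ

theorem chiP (n : ℕ) (μ : ℤ × ℤ) :
    chiConv (P n) μ = ∑ m ∈ Finset.range 10, (cc n).getD m 0 * X (m + 1) μ := by
  simp only [X_succ]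
  simp only [chiConv, P, Finset.mul_sum]
  simp only [← Finset.sum_add_distrib]
  refine Finset.sum_congr rfl fun m _ => ?_
  ring

theorem altP (n : ℕ) : altsum (P n) = ∑ m ∈ Finset.range 10, (cc n).getD m 0 * A m := by
  simp only [← altsum_X]
  simp only [altsum, P]
  simp only [← Finset.sum_add_distrib, ← Finset.sum_sub_distrib]
  refine Finset.sum_congr rfl fun m _ => ?_
  ring

theorem altchiP (n : ℕ) :
    altsum (chiConv (P n)) = ∑ m ∈ Finset.range 10, (cc n).getD m 0 * A (m + 1) := by
  have : chiConv (P n) = fun μ => ∑ m ∈ Finset.range 10, (cc n).getD m 0 * X (m + 1) μ :=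
    funext fun μ => chiP n μ
  rw [this]
  simp only [← altsum_X]
  simp only [altsum]
  simp only [← Finset.sum_add_distrib, ← Finset.sum_sub_distrib]
  refine Finset.sum_congr rfl fun m _ => ?_
  ring

theorem alt_zero : ∀ n : ℕ, 2 ≤ n → n ≤ 9 →
    (∑ m ∈ Finset.range 10, (cc n).getD m 0 * A m = 0) ∧
    (∑ m ∈ Finset.range 10, (cc n).getD m 0 * A (m + 1) = 0) := by
  obtain ⟨a0, a1, a2, a3, a4, a5, a6, a7, a8, a9, a10⟩ := A_vals
  intro n h2 h9
  simp only [Finset.sum_range_succ, Finset.sum_range_zero]
  norm_num only [a0, a1, a2, a3, a4, a5, a6, a7, a8, a9, a10]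
  interval_cases n <;> constructor <;> norm_num [cc]

theorem P_rec : ∀ n : ℕ, 1 ≤ n → n ≤ 9 → ∀ μ, P n μ =
    - ∑ j ∈ Finset.range n, ((n - 1).choose j : ℤ) *
      (av (j + 1) * chiConv (P (n - (j + 1))) μ + bv (j + 1) * P (n - (j + 1)) μ) := by
  intro n h1 h9 μ
  simp only [chiP]
  simp only [P, Finset.sum_range_succ, Finset.sum_range_zero]
  interval_cases n <;>
  · simp only [Finset.sum_range_succ, Finset.sum_range_zero]
    norm_num [cc, av, bv, Nat.choose]
    try ring

/-! ### the main induction -/

theorem altsum_sub_lin (f g h : ℤ × ℤ → ℤ) (x y : ℤ) :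
    altsum (fun μ => f μ - (x * g μ + y * h μ)) = altsum f - (x * altsum g + y * altsum h) := by
  simp only [altsum]
  ring

theorem chiConv_sub_lin (f g h : ℤ × ℤ → ℤ) (x y : ℤ) :
    chiConv (fun μ => f μ - (x * g μ + y * h μ)) =
      fun μ => chiConv f μ - (x * chiConv g μ + y * chiConv h μ) := by
  funext μ
  simp only [chiConv]
  ring

theorem P_zero : P 0 = X 0 := by
  funext μ
  simp [P, cc, Finset.sum_range_succ]

theorem n : S_N := by
  classical
  intro a b F h0 hrec h1 h2
  have key : ∀ n : ℕ, ∀ S : Finset (Fin 9), S.card = n →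
      F S = P n ∧ (1 ≤ n → a S = av n ∧ b S = bv n) := by
    intro n
    induction n using Nat.strong_induction_on with
    | _ n ih =>
      intro S hS
      rcases Nat.eq_zero_or_pos n with hn | hn
      · subst hn
        have hS0 : S = ∅ := Finset.card_eq_zero.1 hS
        refine ⟨?_, fun h => absurd h (by norm_num)⟩
        rw [hS0, P_zero]
        funext μ
        rw [h0]
        rfl
      · have hn9 : n ≤ 9 := by
          rw [← hS]
          simpa using Finset.card_le_univ S
        obtain ⟨s, hs⟩ : S.Nonempty := by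
          rw [← Finset.card_pos]
          omega
        -- the main identity
        have main : ∀ μ, F S μ = P n μ - ((a S - av n) * X 1 μ + (b S - bv n) * X 0 μ) := by
          intro μ
          set f : Finset (Fin 9) → ℤ := fun U =>
            a U * chiConv (F (S \ U)) μ + b U * F (S \ U) μ with hf
          set T : ℕ → ℤ := fun j => av j * chiConv (P (n - j)) μ + bv j * P (n - j) μ with hT
          have e1 : ∑ U ∈ S.powerset.filter (fun U => s ∈ U), f U =
              ∑ V ∈ (S.erase s).powerset, f (insert s V) := by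
            symm
            refine Finset.sum_bij (fun V _ => insert s V) ?_ ?_ ?_ ?_
            · intro V hV
              rw [Finset.mem_powerset] at hV
              rw [Finset.mem_filter, Finset.mem_powerset]
              exact ⟨Finset.insert_subset hs (hV.trans (Finset.erase_subset _ _)),
                Finset.mem_insert_self _ _⟩
            · intro V hV W hW h
              rw [Finset.mem_powerset] at hV hW
              have hV' : s ∉ V := fun h => Finset.notMem_erase s S (hV h)
              have hW' : s ∉ W := fun h => Finset.notMem_erase s S (hW h)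
              rw [← Finset.erase_insert hV', ← Finset.erase_insert hW', h]
            · intro U hU
              rw [Finset.mem_filter, Finset.mem_powerset] at hU
              exact ⟨U.erase s, Finset.mem_powerset.2 (Finset.erase_subset_erase s hU.1),
                Finset.insert_erase hU.2⟩
            · intro V _
              rfl
          have hcardV : ∀ V ∈ (S.erase s).powerset, (insert s V).card = V.card + 1 := by
            intro V hV
            rw [Finset.mem_powerset] at hV
            exact Finset.card_insert_of_notMem fun h => Finset.notMem_erase s S (hV h)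
          -- all terms but the last one
          have e2 : ∀ V ∈ (S.erase s).powerset, V ≠ S.erase s → f (insert s V) = T (V.card + 1) := by
            intro V hV hne
            have hc := hcardV V hV
            have hV' := hV
            rw [Finset.mem_powerset] at hV'
            have hss : V ⊂ S.erase s := ⟨hV', fun h => hne (Finset.Subset.antisymm hV' h)⟩
            have hlt := Finset.card_lt_card hss
            rw [Finset.card_erase_of_mem hs, hS] at hlt
            have hsub : insert s V ⊆ S :=
              Finset.insert_subset hs (hV'.trans (Finset.erase_subset _ _))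
            have hcd : (S \ insert s V).card = n - (V.card + 1) := by
              rw [Finset.card_sdiff_of_subset hsub, hS, hc]
            obtain ⟨g1, -⟩ := ih (n - (V.card + 1)) (by omega) _ hcd
            obtain ⟨-, g2⟩ := ih (V.card + 1) (by omega) _ hc
            obtain ⟨g3, g4⟩ := g2 (by omega)
            simp only [hf, hT]
            rw [g1, g3, g4]
          have e3 : f (insert s (S.erase s)) = T n +
              ((a S - av n) * X 1 μ + (b S - bv n) * X 0 μ) := by
            simp only [hf, hT]
            obtain ⟨g1, -⟩ := ih 0 (by omega) (S \ S) (by simp)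
            rw [Finset.insert_erase hs, g1, Nat.sub_self, P_zero, ← X_succ]
            ring
          have hlast : S.erase s ∈ (S.erase s).powerset := Finset.mem_powerset_self _
          have hcl : (S.erase s).card + 1 = n := by
            rw [Finset.card_erase_of_mem hs, hS]
            omega
          have e4 : ∑ V ∈ (S.erase s).powerset, f (insert s V) =
              ∑ V ∈ (S.erase s).powerset, T (V.card + 1) +
              ((a S - av n) * X 1 μ + (b S - bv n) * X 0 μ) := by
            rw [← Finset.add_sum_erase _ _ hlast, ← Finset.add_sum_erase _ (fun V : Finset (Fin 9) =>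
              T (V.card + 1)) hlast, e3, hcl]
            rw [Finset.sum_congr rfl fun V hV => e2 V (Finset.mem_of_mem_erase hV)
              (Finset.ne_of_mem_erase hV)]
            ring
          have e5 : ∑ V ∈ (S.erase s).powerset, T (V.card + 1) =
              ∑ j ∈ Finset.range n, ((n - 1).choose j : ℤ) * T (j + 1) := by
            rw [Finset.sum_powerset_apply_card (fun j => T (j + 1)), hcl]
            refine Finset.sum_congr rfl fun j _ => ?_
            rw [nsmul_eq_mul, show (S.erase s).card = n - 1 by omega]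
          rw [hrec S s hs μ]
          change - ∑ U ∈ S.powerset.filter (fun U => s ∈ U), f U = _
          rw [e1, e4, e5, P_rec n hn hn9 μ]
          simp only [hT]
          ring
        have hab : a S = av n ∧ b S = bv n := by
          rcases Nat.lt_or_ge n 2 with h | h
          · have hn1 : n = 1 := by omega
            obtain ⟨i, hi⟩ := Finset.card_eq_one.1 (hS.trans hn1)
            rw [hi, hn1]
            exact h1 i
          · obtain ⟨z1, z2⟩ := h2 S (by omega)
            obtain ⟨y1, y2⟩ := alt_zero n h hn9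
            obtain ⟨a0, a1, a2, -⟩ := A_vals
            have hFS : F S = fun μ => P n μ - ((a S - av n) * X 1 μ + (b S - bv n) * X 0 μ) :=
              funext main
            rw [hFS] at z1 z2
            rw [altsum_sub_lin, altP, y1, altsum_X, altsum_X, a0, a1] at z1
            rw [chiConv_sub_lin, altsum_sub_lin, altchiP, y2, ← X_succ, ← X_succ, altsum_X,
              altsum_X, a1, a2] at z2
            constructor <;> linarith
        refine ⟨?_, fun _ => hab⟩
        funext μ
        rw [main μ, hab.1, hab.2]
        ring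
  have := ((key 9 Finset.univ (by simp)).2 (by norm_num)).1
  rw [this]
  rfl

end Pool.Agent.W345.ABG
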